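import Pool.Agent.Y5.F.Stm
import Pool.Agent.Y274.NE.B1

/-!
Stage 5: `L = ν (-Δ)^α + D` with `0 ≤ D ≤ δ (-Δ)^α'`, for every `δ > 0`: definitions.
-/

open Set Filter Topology MeasureTheory

set_option autoImplicit false

namespace Pool.Agent.Y5.G

open Pool.Agent.Y5.D Pool.Agent.Y5.E Pool.Agent.Y5.F

/-- A complete orthonormal system of trigonometric polynomials `e i` and eigenvalues
`lam i ≥ 0`: the linear dissipation `L = ∑ lam i ⟨·, e i⟩ e i` is `ν (-Δ)^α + D` where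
`0 ≤ D ≤ δ (-Δ)^α'` as quadratic forms; `L` is of order at most `2 α'`. -/
structure Diss5 {ι : Type} (ν α α' δ : ℝ) (e : ι → E3 → E3) (lam : ι → ℝ) : Prop where
  field : ∀ i, TP (e i)
  nonneg : ∀ i, 0 ≤ lam i
  orth : ∀ i j, (i = j → ip (e i) (e j) = 1) ∧ (i ≠ j → ip (e i) (e j) = 0)
  pars : ∀ v, PF v → HasSum (fun i => ip v (e i) ^ 2) (ip v v)
  summ : ∀ v, PF v → Summable (fun i => lam i * ip v (e i) ^ 2)
  low : ∀ v, PF v → ν * sob α v ≤ ∑' i, lam i * ip v (e i) ^ 2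
  up : ∀ v, PF v → ∑' i, lam i * ip v (e i) ^ 2 ≤ ν * sob α v + δ * sob α' v
  ord : ∀ m : ℕ, ∃ Cm : ℝ, ∀ v, PF v → ∃ w, PF w ∧ (∀ i, ip w (e i) = lam i * ip v (e i)) ∧
    sob m w ≤ Cm * sob (m + 2 * α') v

/-! ### Solutions in terms of the coefficients -/

/-- solutions in terms of the coefficients -/
structure CSol {I : Type} (e : I → Fam) (lam : I → ℝ) (T : ℝ) (V : ℝ → Fam) : Prop where
  ot : ∀ t ∈ Ico 0 T, OT (V t)
  rap : ∀ m : ℕ, ∀ T' < T, ∃ M, ∀ t ∈ Icc 0 T', ∀ k, ‖vec k‖ ^ m * ‖V t k‖ ≤ M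
  eqn : ∀ i, ∀ t ∈ Ico 0 T, HasDerivWithinAt (fun τ => pair (V τ) (e i))
    (-(lam i * pair (V t) (e i)) + bil (V t) (V t) (e i)) (Ico 0 T) t

/-- complete orthonormal systems of families with finite support -/
structure OB {I : Type} (F : I → ℝ) (e : I → Fam) : Prop where
  ot : ∀ a, OT (e a)
  fsupp : ∀ a k, e a k ≠ 0 → 1 ≤ ‖vec k‖ ∧ ‖vec k‖ ≤ F a
  F1 : ∀ a, 1 ≤ F a
  cmp : ∃ D : ℝ, 0 < D ∧ ∀ a k, e a k ≠ 0 → F a ≤ D * ‖vec k‖ ^ 12
  l1 : ∀ a, ∑' k, ‖e a k‖ ≤ F a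
  summ : Summable (fun a => 1 / F a ^ 15)
  orth : ∀ a b, (a = b → pair (e a) (e b) = 1) ∧ (a ≠ b → pair (e a) (e b) = 0)
  exp : ∀ V, OT V → Rap V → ∀ k, HasSum (fun a => pair V (e a) • e a k) (V k)

/-! ### Dilation -/

/-- frequencies divisible by `N` -/
def Dv (N : ℕ) (k : Z3) : Prop := ∀ i, (N : ℤ) ∣ k i

open Classical in
/-- the coefficients of `v (N ·)` -/
noncomputable def dil (N : ℕ) (V : Fam) : Fam := fun k => if Dv N k then V (fun i => k i / N) else 0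

/-- the part with frequencies divisible by `N`, contracted -/
def res (N : ℕ) (V : Fam) : Fam := fun k => V (fun i => N * k i)

/-! ### The other frequencies -/

/-- a half space -/
def hp (k : Z3) : Prop := 0 < k 0 ∨ (k 0 = 0 ∧ 0 < k 1) ∨ (k 0 = 0 ∧ k 1 = 0 ∧ 0 < k 2)

open Classical in
/-- two orthonormal vectors orthogonal to `k ≠ 0` -/
noncomputable def pol (k : Z3) : Fin 2 → E3 :=
  if h : ∃ p : Fin 2 → E3, Orthonormal ℝ p ∧ ∀ σ, inner ℝ (vec k) (p σ) = 0 then h.choose else 0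

/-- index set for the frequencies not divisible by `N` -/
abbrev Kx (N : ℕ) : Type := {k : Z3 // ¬ Dv N k ∧ hp k} × Fin 2

open Classical in
/-- the sine modes with frequencies not divisible by `N` -/
noncomputable def fk (N : ℕ) (p : Kx N) : Fam := fun q =>
  if q = p.1.1 then (√2)⁻¹ • pol p.1.1 p.2 else if q = -p.1.1 then -((√2)⁻¹ • pol p.1.1 p.2) else 0

/-! ### The combined system -/

noncomputable def eC {J : Type} (N : ℕ) (e : Ix J → Fam) : Ix J ⊕ Kx N → Fam :=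
  Sum.elim (fun a => dil N (e a)) (fk N)

noncomputable def lamC {J : Type} (ν α : ℝ) (N : ℕ) (lam : Ix J → ℝ) : Ix J ⊕ Kx N → ℝ :=
  Sum.elim (fun a => (N : ℝ) ^ (2 * α) * lam a) (fun p => ν * (2 * Real.pi * ‖vec p.1.1‖) ^ (2 * α))

end Pool.Agent.Y5.G
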