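import Pool.Agent.Y5.F.Main4
import Pool.Agent.Y5.G.Ex
import Pool.Agent.Y5.G.Asm
import Pool.Agent.Y301.G.UNI
import Pool.Agent.Y288.NS.Obc
import Pool.Agent.Y319.NSG.Dis

set_option autoImplicit false

namespace Pool.Agent.Y5.G

open Pool.Agent.Y5 Pool.Agent.Y5.D Pool.Agent.Y5.E Pool.Agent.Y5.F

theorem t_EX' : S_EX :=
  t_EX Pool.Agent.Y274.NE.t_FLD2 t_BLOW4 t_CONC4

theorem t_OBC' : S_OBC := Pool.Agent.Y288.NS.t_OBC Pool.Agent.Y288.NS.t_DIL Pool.Agent.Y288.NS.t_CMP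

theorem t_DIS' : S_DIS :=
  Pool.Agent.Y319.NSG.t_DIS Pool.Agent.Y274.NE.t_FLD2 Pool.Agent.Y288.NS.t_DIL
    Pool.Agent.Y288.NS.t_CMP t_OBC'

theorem t_MAIN5 : S_MAIN5 :=
  t_ASM Pool.Agent.Y274.NE.t_FLD2 t_EX' Pool.Agent.Y301.G.t_UNI Pool.Agent.Y288.NS.t_DIL
    Pool.Agent.Y288.NS.t_CMP t_OBC' t_DIS'

end Pool.Agent.Y5.G
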