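import Pool.Agent.Y5.G.Defs

/-! Stage 5: statements of the steps. -/

open Set Filter Topology MeasureTheory

set_option autoImplicit false

namespace Pool.Agent.Y5.G

open Pool.Agent.Y5.D Pool.Agent.Y5.E Pool.Agent.Y5.F
open Pool.Agent.Y274.NE (Bs)

/-- Uniqueness of smooth solutions (energy estimate for the difference). -/
def S_UNI : Prop := ∀ (I : Type) (F : I → ℝ) (e : I → Fam) (lam : I → ℝ), OB F e →
  (∀ a, 0 ≤ lam a) → (∃ (D : ℝ) (q : ℕ), ∀ a, lam a ≤ D * F a ^ q) →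
  ∀ (T : ℝ) (V W : ℝ → Fam), CSol e lam T V → CSol e lam T W → (∀ k, V 0 k = W 0 k) →
    ∀ t ∈ Ico 0 T, ∀ k, V t k = W t k

/-- Stage 4 in terms of the coefficients. -/
def S_EX : Prop := ∀ ν α α' : ℝ, 0 < ν → 1 ≤ α → α < 5 / 4 → α < α' →
  ∃ (J : Type) (g : J → ℕ) (L M : ℕ → ℝ) (e : Ix J → Fam) (lam : Ix J → ℝ) (T : ℝ)
    (V : ℝ → Fam), Bs g L M e ∧ Diss4 ν α α' (fun a => fieldOf (e a)) lam ∧
    (∃ D : ℝ, ∀ a, lam a ≤ D * L (gr g a)) ∧ 0 < T ∧ CSol e lam T V ∧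
    (∀ k, V 0 k = e (Sum.inl 0) k) ∧
    (∀ t ∈ Ico 0 T, HasDerivWithinAt (fun τ => pair (V τ) (V τ))
      (-(2 * ∑' a, lam a * pair (V t) (e a) ^ 2)) (Ico 0 T) t) ∧
    ∀ R : ℝ, ∃ t ∈ Ico 0 T, ∃ y, R < ‖fieldOf (V t) y‖

/-- Dilations. -/
def S_DIL : Prop := ∀ N : ℕ, 0 < N →
  (∀ k : Z3, Dv N (fun i => (N : ℤ) * k i)) ∧
  (∀ k, Dv N k → ∃ l : Z3, k = fun i => (N : ℤ) * l i) ∧
  (∀ V, OT V → OT (dil N V)) ∧ (∀ V, OT V → OT (res N V)) ∧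
  (∀ V, Rap V → Rap (dil N V)) ∧ (∀ V, Rap V → Rap (res N V)) ∧
  (∀ V, res N (dil N V) = V) ∧
  (∀ V k, Dv N k → dil N (res N V) k = V k) ∧
  (∀ V k, ¬ Dv N k → dil N V k = 0) ∧
  (∀ k : Z3, ‖vec (fun i => (N : ℤ) * k i)‖ = N * ‖vec k‖) ∧
  (∀ V, ∑' k, ‖dil N V k‖ = ∑' k, ‖V k‖) ∧
  (∀ (w : Z3 → ℝ) (V : Fam), ∑' k, w k * ‖dil N V k‖ ^ 2 =
    ∑' k : Z3, w (fun i => (N : ℤ) * k i) * ‖V k‖ ^ 2) ∧
  (∀ (w : Z3 → ℝ) (V : Fam), Summable (fun k => w k * ‖dil N V k‖ ^ 2) ↔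
    Summable (fun k : Z3 => w (fun i => (N : ℤ) * k i) * ‖V k‖ ^ 2)) ∧
  (∀ V W, pair V (dil N W) = pair (res N V) W) ∧
  (∀ V W, pair (dil N V) (dil N W) = pair V W) ∧
  (∀ V W Z, bil (dil N V) (dil N W) (dil N Z) = N * bil V W Z) ∧
  (∀ V W Z, (∀ k, Dv N k → Z k = 0) → bil (dil N V) (dil N W) Z = 0) ∧
  (∀ V Z, (∀ k, Dv N k → Z k = 0) → pair (dil N V) Z = 0) ∧
  (∀ V y, fieldOf (dil N V) y = fieldOf V ((N : ℝ) • y))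

open Classical in
/-- The sine modes with frequencies not divisible by `N`. -/
def S_CMP : Prop := ∀ N : ℕ, 0 < N →
  (∀ p : Kx N, OT (fk N p)) ∧
  (∀ (p : Kx N) k, fk N p k ≠ 0 → ¬ Dv N k ∧ ‖vec k‖ = ‖vec p.1.1‖) ∧
  (∀ p : Kx N, 1 ≤ ‖vec p.1.1‖) ∧
  (∀ p : Kx N, ∑' k, ‖fk N p k‖ ≤ 2) ∧
  Summable (fun p : Kx N => 1 / ‖vec p.1.1‖ ^ 15) ∧
  (∀ p q : Kx N, (p = q → pair (fk N p) (fk N q) = 1) ∧ (p ≠ q → pair (fk N p) (fk N q) = 0)) ∧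
  (∀ V, OT V → ∀ k, HasSum (fun p => pair V (fk N p) • fk N p k) (if Dv N k then 0 else V k)) ∧
  (∀ V, OT V → Rap V → ∀ w : Z3 → ℝ, (∀ k, w (-k) = w k) → (∃ (D : ℝ) (q : ℕ), ∀ k,
      |w k| ≤ D * (1 + ‖vec k‖) ^ q) →
    HasSum (fun p : Kx N => w p.1.1 * pair V (fk N p) ^ 2)
      (∑' k, if Dv N k then 0 else w k * ‖V k‖ ^ 2))

/-- The combined orthonormal system. -/
def S_OBC : Prop := ∀ (J : Type) (g : J → ℕ) (L M : ℕ → ℝ) (e : Ix J → Fam) (N : ℕ), 0 < N →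
  Bs g L M e → OB (Sum.elim (fun a : Ix J => 2 * N * M (gr g a)) (fun p : Kx N => 2 * ‖vec p.1.1‖))
    (eC N e)

/-- The linear dissipation of the combined system. -/
def S_DIS : Prop := ∀ (J : Type) (g : J → ℕ) (L M : ℕ → ℝ) (e : Ix J → Fam) (lam : Ix J → ℝ)
  (ν α α' δ : ℝ), 0 < ν → 1 ≤ α → α < α' → 0 < δ → Bs g L M e →
  Diss4 ν α α' (fun a => fieldOf (e a)) lam →
  ∃ N : ℕ, 0 < N ∧ Diss5 ν α α' δ (fun a => fieldOf (eC N e a)) (lamC ν α N lam)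

/-- The main theorem: for all `1 ≤ α < 5/4`, `α' > α` and `δ > 0` there is a linear dissipation
`L = ν (-Δ)^α + D`, `0 ≤ D ≤ δ (-Δ)^α'`, for which the Navier-Stokes equations blow up. -/
def S_MAIN5 : Prop := ∀ ν α α' δ : ℝ, 0 < ν → 1 ≤ α → α < 5 / 4 → α < α' → 0 < δ →
  ∃ (ι : Type) (e : ι → E3 → E3) (lam : ι → ℝ) (T : ℝ) (u : ℝ → E3 → E3),
    Diss5 ν α α' δ e lam ∧ 0 < T ∧ Sol2 e lam T u ∧ TP (u 0) ∧
    -- uniqueness, and `T` is the maximal time of existence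
    (∀ (T' : ℝ) (v : ℝ → E3 → E3), 0 < T' → Sol2 e lam T' v → v 0 = u 0 →
      T' ≤ T ∧ ∀ t ∈ Ico 0 T', v t = u t) ∧
    -- energy identity
    (∀ t ∈ Ico 0 T, HasDerivWithinAt (fun τ => ip (u τ) (u τ))
      (-(2 * ∑' i, lam i * ip (u t) (e i) ^ 2)) (Ico 0 T) t) ∧
    -- blow-up of the velocity
    ∀ M : ℝ, ∃ t ∈ Ico 0 T, ∃ y, M < ‖u t y‖

/-- The assembly. -/
def S_ASM : Prop := S_FLD2 → S_EX → S_UNI → S_DIL → S_CMP → S_OBC → S_DIS → S_MAIN5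

end Pool.Agent.Y5.G
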